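import Pool.Agent.helper73.Link

set_option autoImplicit false

open Set Filter Topology
open Pool.Agent.helper73.TreeUltra
open Pool.Agent.helper73.Coherent (FTO Coh sym sym_comm sym_of_lt exists_coherent exists_dom)

namespace Pool.Agent.Results.MP_b40933_gt.PerfectImageTychonoff

/-- The star `st(x, G)` of a point with respect to a family `G` of sets: the union of all
members of `G` that contain `x`. -/
def starAt {X : Type*} (x : X) (G : Set (Set X)) : Set X := ⋃₀ {U | U ∈ G ∧ x ∈ U}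

/-- `X` is a wΔ-space: there is a sequence of open covers `G 0, G 1, ...` such that for every
point `x` every sequence `u` with `u n ∈ st(x, G n)` for all `n` has a cluster point. -/
def IsWDelta (X : Type*) [TopologicalSpace X] : Prop :=
  ∃ G : ℕ → Set (Set X), (∀ n, ∀ U ∈ G n, IsOpen U) ∧ (∀ n, ⋃₀ G n = univ) ∧
    ∀ x : X, ∀ u : ℕ → X, (∀ n, u n ∈ starAt x (G n)) → ∃ y, MapClusterPt y atTop u

/-- `f` is a perfect map: continuous, closed, surjective, with compact fibres. -/
def IsPerfect {X Y : Type*} [TopologicalSpace X] [TopologicalSpace Y] (f : X → Y) : Prop :=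
  Continuous f ∧ IsClosedMap f ∧ Function.Surjective f ∧ ∀ y, IsCompact (f ⁻¹' {y})

/-! ### The combinatorial data -/

/-- a coherent family of finite-to-one functions on `ω₁` -/
noncomputable def ee : W1 → W1 → ℕ := (exists_coherent W1_Iio).choose
lemma ee_fto : ∀ γ, FTO γ (ee γ) := (exists_coherent W1_Iio).choose_spec.1
lemma ee_coh : ∀ γ, ∀ δ < γ, Coh δ (ee δ) (ee γ) := (exists_coherent W1_Iio).choose_spec.2

/-- the countably compact family of ultrafilters -/
noncomputable def AA : Set (Ultrafilter D) := exists_AA.choose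
lemma AA_adm : ∀ u ∈ AA, Adm u := exists_AA.choose_spec.1
lemma aa_mem : ∀ α, aa α ∈ AA := exists_AA.choose_spec.2.1
lemma AA_cc : ∀ w : ℕ → Ultrafilter D, (∀ n, w n ∈ AA) →
      ∃ v : Ultrafilter ℕ, (v : Filter ℕ) ≤ cofinite ∧ v.bind w ∈ AA :=
  exists_AA.choose_spec.2.2.1
lemma AA_dc : ∀ (w : ℕ → D) (x : ℕ → Bool), (∀ N, ∃ n ≥ N, ∃ j ≥ N, w n ∈ Off x j) →
      ∃ v : Ultrafilter ℕ, (v : Filter ℕ) ≤ cofinite ∧ v.map w ∈ AA :=
  exists_AA.choose_spec.2.2.2

/-- the traces of the neighbourhoods of the base points on the sets of ordinals -/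
def Wn (r : ℕ) (α : W1) : Set (Set W1) := {y | α ∈ y ∧ ∀ β ∈ y, β ≠ α → r ≤ sym ee α β}

lemma Wn_anti {r r' : ℕ} (h : r ≤ r') (α : W1) : Wn r' α ⊆ Wn r α :=
  fun _ hy => ⟨hy.1, fun β hβ hne => h.trans (hy.2 β hβ hne)⟩

/-- compatible pairs -/
def Compat (M : Set D) (U : Set (Set W1)) : Prop :=
  ∀ α, (M ∈ aa α ∧ ∃ r, Wn r α ⊆ U) ∨ (Mᶜ ∈ aa α ∧ ∃ r, Wn r α ⊆ Uᶜ)

lemma Compat.compl {M : Set D} {U : Set (Set W1)} (h : Compat M U) : Compat Mᶜ Uᶜ := by
  intro α
  rcases h α with h | h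
  · right
    rw [compl_compl, compl_compl]
    exact h
  · left
    exact h

lemma Compat.inter {M M' : Set D} {U U' : Set (Set W1)} (h : Compat M U) (h' : Compat M' U') :
    Compat (M ∩ M') (U ∩ U') := by
  intro α
  rcases h α with ⟨h1, r, h2⟩ | ⟨h1, r, h2⟩
  · rcases h' α with ⟨h3, r', h4⟩ | ⟨h3, r', h4⟩
    · left
      exact ⟨inter_mem h1 h3, max r r', subset_inter ((Wn_anti (le_max_left _ _) α).trans h2)
        ((Wn_anti (le_max_right _ _) α).trans h4)⟩
    · right
      exact ⟨mem_of_superset h3 (compl_subset_compl.2 inter_subset_right), r',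
        h4.trans (compl_subset_compl.2 inter_subset_right)⟩
  · right
    exact ⟨mem_of_superset h1 (compl_subset_compl.2 inter_subset_left), r,
      h2.trans (compl_subset_compl.2 inter_subset_left)⟩

lemma compat_univ : Compat univ univ := fun _ => Or.inl ⟨univ_mem, 0, subset_univ _⟩

lemma compat_empty {M : Set D} (h : ∀ α, Mᶜ ∈ aa α) : Compat M ∅ :=
  fun α => Or.inr ⟨h α, 0, by rw [compl_empty]; exact subset_univ _⟩

/-- every small antichain has a compatible partner -/
lemma exists_compat {M : Set D} (hM : {α | M ∈ aa α}.Countable) : ∃ U, Compat M U := by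
  obtain ⟨g, hg⟩ := exists_dom W1_Iio ee_coh hM
  refine ⟨⋃ β ∈ {α | M ∈ aa α}, Wn (g β) β, fun α => ?_⟩
  by_cases hα : M ∈ aa α
  · left
    exact ⟨hα, g α, subset_biUnion_of_mem (u := fun β => Wn (g β) β)
      (show α ∈ {α | M ∈ aa α} from hα)⟩
  · right
    rw [Ultrafilter.compl_mem_iff_notMem]
    refine ⟨hα, ?_⟩
    obtain ⟨N, hN⟩ := ((hg α).image (sym ee α)).bddAbove
    refine ⟨N + 1, ?_⟩
    intro y hy hcon
    rw [mem_iUnion₂] at hcon
    obtain ⟨β, hβ, hyβ⟩ := hcon
    have hne : β ≠ α := by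
      rintro rfl
      exact hα hβ
    have h1 : N + 1 ≤ sym ee α β := hy.2 β hyβ.1 hne
    have h2 : g β ≤ sym ee α β := by
      rw [sym_comm]
      exact hyβ.2 α hy.1 hne.symm
    have h3 : sym ee α β ≤ N := hN ⟨β, ⟨hβ, h2⟩, rfl⟩
    omega

/-! ### The space -/

/-- Points of the space. -/
inductive Pt : Type
  | nd (s : D) : Pt
  | ul (u : Ultrafilter D) (hu : u ∈ AA) : Pt
  | fp (v : Ultrafilter (Set W1)) (ζ : W1) : Pt

/-- first kind of basic sets -/
def NN (M : Set D) (U : Set (Set W1)) (ξ : W1) : Set Pt :=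
  {p | match p with
    | .nd s => s ∈ M
    | .ul u _ => M ∈ u
    | .fp v ζ => U ∈ v ∧ ξ < ζ}

/-- second kind of basic sets -/
def BB (U : Set (Set W1)) (ζ : W1) : Set Pt :=
  {p | match p with
    | .nd _ => False
    | .ul _ _ => False
    | .fp v η => U ∈ v ∧ η ≤ ζ}

/-- the generating sets -/
def Gen : Set (Set Pt) :=
  {O | (∃ M U ξ, Compat M U ∧ O = NN M U ξ) ∨ ∃ U ζ, O = BB U ζ}

instance : TopologicalSpace Pt := TopologicalSpace.generateFrom Gen

lemma NN_open {M : Set D} {U : Set (Set W1)} (h : Compat M U) (ξ : W1) : IsOpen (NN M U ξ) :=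
  TopologicalSpace.isOpen_generateFrom_of_mem (Or.inl ⟨M, U, ξ, h, rfl⟩)

lemma BB_open (U : Set (Set W1)) (ζ : W1) : IsOpen (BB U ζ) :=
  TopologicalSpace.isOpen_generateFrom_of_mem (Or.inr ⟨U, ζ, rfl⟩)

lemma NN_compl (M : Set D) (U : Set (Set W1)) (ξ : W1) :
    (NN M U ξ)ᶜ = NN Mᶜ Uᶜ ξ ∪ BB univ ξ := by
  ext p
  cases p with
  | nd s => simp [NN, BB]
  | ul u hu => simp [NN, BB, Ultrafilter.compl_mem_iff_notMem]
  | fp v ζ =>
    have hv : univ ∈ v := univ_mem
    simp only [NN, BB, mem_compl_iff, mem_union, mem_ofPred_eq, Ultrafilter.compl_mem_iff_notMem]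
    rcases lt_or_ge ξ ζ with h | h
    · simp [h, not_le.2 h]
    · simp [h, not_lt.2 h, hv]

lemma BB_compl (U : Set (Set W1)) (ζ : W1) :
    (BB U ζ)ᶜ = NN univ univ ζ ∪ BB Uᶜ ζ := by
  ext p
  cases p with
  | nd s => simp [NN, BB]
  | ul u hu =>
    have hu : univ ∈ u := univ_mem
    simp [NN, BB, hu]
  | fp v η =>
    have hv : univ ∈ v := univ_mem
    simp only [NN, BB, mem_compl_iff, mem_union, mem_ofPred_eq, Ultrafilter.compl_mem_iff_notMem]
    rcases lt_or_ge ζ η with h | h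
    · simp [h, not_le.2 h, hv]
    · simp [h, not_lt.2 h]

lemma NN_clopen {M : Set D} {U : Set (Set W1)} (h : Compat M U) (ξ : W1) : IsClopen (NN M U ξ) := by
  refine ⟨?_, NN_open h ξ⟩
  rw [← isOpen_compl_iff, NN_compl]
  exact (NN_open h.compl ξ).union (BB_open _ _)

lemma BB_clopen (U : Set (Set W1)) (ζ : W1) : IsClopen (BB U ζ) := by
  refine ⟨?_, BB_open U ζ⟩
  rw [← isOpen_compl_iff, BB_compl]
  exact (NN_open compat_univ ζ).union (BB_open _ _)

lemma clopen_basis : TopologicalSpace.IsTopologicalBasis {s : Set Pt | IsClopen s} := by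
  refine (TopologicalSpace.isTopologicalBasis_of_subbasis (s := Gen) rfl).of_isOpen_of_subset
    (fun u hu => hu.isOpen) ?_
  rintro _ ⟨F, ⟨hF, hFG⟩, rfl⟩
  change IsClopen (⋂₀ F)
  rw [sInter_eq_biInter]
  refine hF.isClopen_biInter fun O hO => ?_
  rcases hFG hO with ⟨M, U, ξ, h, rfl⟩ | ⟨U, ζ, rfl⟩
  · exact NN_clopen h ξ
  · exact BB_clopen U ζ

lemma singleton_notMem {u : Ultrafilter D} (hu : ∃ x, LocAt x u) (s : D) : {s} ∉ u := by
  obtain ⟨x, hx⟩ := hu
  intro hcon
  obtain ⟨s', h1, h2⟩ := u.nonempty_of_mem (inter_mem hcon (hx (len s + 1)))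
  rw [mem_singleton_iff.1 h1] at h2
  have := h2.1
  omega

lemma compat_singleton (s : D) : Compat {s} ∅ := by
  refine compat_empty fun α => ?_
  rw [Ultrafilter.compl_mem_iff_notMem]
  exact singleton_notMem ⟨_, aa_loc α⟩ s

instance : Nonempty W1 := (inferInstance : Infinite W1).nonempty

/-- an arbitrary element of `ω₁` -/
noncomputable def o : W1 := Classical.arbitrary W1

lemma small_compat {M : Set D} (h : SmallAC M) : ∃ U, Compat M U := exists_compat h.2

lemma SmallAC_mono {M M' : Set D} (h : SmallAC M) (hs : M' ⊆ M) : SmallAC M' :=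
  ⟨h.1.mono hs, h.2.mono fun α hα =>
    (mem_of_superset (show M' ∈ (aa α : Filter D) from hα) hs : M ∈ (aa α : Filter D))⟩

/-- a separating open set -/
def Sep (p q : Pt) : Prop := ∃ O : Set Pt, IsClopen O ∧ p ∈ O ∧ q ∉ O

lemma Sep.symm {p q : Pt} (h : Sep p q) : Sep q p := by
  obtain ⟨O, h1, h2, h3⟩ := h
  exact ⟨Oᶜ, h1.compl, h3, fun h => h h2⟩

lemma sep_nd (s : D) (p : Pt) (h : p ≠ .nd s) : Sep (.nd s) p := by
  refine ⟨NN {s} ∅ o, NN_clopen (compat_singleton s) o, mem_singleton s, ?_⟩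
  cases p with
  | nd s' =>
    intro hcon
    apply h
    rw [show s' = s from hcon]
  | ul u hu =>
    intro hcon
    exact singleton_notMem (AA_adm u hu).1 s hcon
  | fp v ζ =>
    intro hcon
    exact v.empty_notMem hcon.1

lemma sep_ul (u : Ultrafilter D) (hu : u ∈ AA) (p : Pt) (h : p ≠ .ul u hu) : Sep (.ul u hu) p := by
  cases p with
  | nd s => exact (sep_nd s _ Pt.noConfusion).symm
  | ul u' hu' =>
    have hne : u' ≠ u := by
      rintro rfl
      exact h rfl
    obtain ⟨M, hM1, hM2⟩ : ∃ M, M ∈ u ∧ M ∉ u' := by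
      by_contra hcon
      push Not at hcon
      apply hne
      exact Ultrafilter.coe_injective (u.unique (fun M hM => hcon M hM)).symm.symm
    obtain ⟨M₀, hM0, hM0s⟩ := (AA_adm u hu).2
    have hs := SmallAC_mono hM0s (inter_subset_right (s := M) (t := M₀))
    obtain ⟨U, hU⟩ := small_compat hs
    refine ⟨NN (M ∩ M₀) U o, NN_clopen hU o, inter_mem hM1 hM0, ?_⟩
    intro hcon
    exact hM2 (mem_of_superset (show M ∩ M₀ ∈ u' from hcon) inter_subset_left)
  | fp v ζ =>
    obtain ⟨M₀, hM0, hM0s⟩ := (AA_adm u hu).2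
    obtain ⟨U, hU⟩ := small_compat hM0s
    exact ⟨NN M₀ U ζ, NN_clopen hU ζ, hM0, fun hcon => lt_irrefl _ hcon.2⟩

lemma sep_fp (v : Ultrafilter (Set W1)) (ζ : W1) (p : Pt) (h : p ≠ .fp v ζ) : Sep (.fp v ζ) p := by
  cases p with
  | nd s => exact (sep_nd s _ Pt.noConfusion).symm
  | ul u hu => exact (sep_ul u hu _ Pt.noConfusion).symm
  | fp v' ζ' =>
    rcases lt_trichotomy ζ ζ' with h1 | h1 | h1
    · exact ⟨BB univ ζ, BB_clopen _ _, ⟨univ_mem, le_rfl⟩, fun hcon => absurd hcon.2 (not_le.2 h1)⟩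
    · subst h1
      have hne : v' ≠ v := by
        rintro rfl
        exact h rfl
      obtain ⟨M, hM1, hM2⟩ : ∃ M, M ∈ v ∧ M ∉ v' := by
        by_contra hcon
        push Not at hcon
        apply hne
        exact Ultrafilter.coe_injective (v.unique (fun M hM => hcon M hM)).symm.symm
      exact ⟨BB M ζ, BB_clopen _ _, ⟨hM1, le_rfl⟩, fun hcon => hM2 hcon.1⟩
    · refine Sep.symm ⟨BB univ ζ', BB_clopen _ _, ⟨univ_mem, le_rfl⟩,
        fun hcon => absurd hcon.2 (not_le.2 h1)⟩

lemma sep {p q : Pt} (h : q ≠ p) : Sep p q := by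
  cases p with
  | nd s => exact sep_nd s q h
  | ul u hu => exact sep_ul u hu q h
  | fp v ζ => exact sep_fp v ζ q h

instance : T35Space Pt where
  toT0Space := by
    rw [t0Space_iff_not_inseparable]
    intro p q hpq hins
    obtain ⟨O, hO, hp, hq⟩ := sep hpq.symm
    exact hq ((hins.mem_open_iff hO.isOpen).1 hp)
  toCompletelyRegularSpace := CompletelyRegularSpace.of_isTopologicalBasis_clopens clopen_basis

/-! ### Convergence -/

/-- The ultrafilter on the nodes attached to a point. -/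
noncomputable def trace : Pt → Ultrafilter D
  | .nd s => pure s
  | .ul u _ => u
  | .fp _ _ => pure []

/-- not a point of the third kind -/
def NotFp (p : Pt) : Prop := ∀ v ζ, p ≠ .fp v ζ

lemma mem_NN_iff {p : Pt} (hp : NotFp p) (M : Set D) (U : Set (Set W1)) (ξ : W1) :
    p ∈ NN M U ξ ↔ M ∈ trace p := by
  cases p with
  | nd s => exact Iff.rfl
  | ul u hu => exact Iff.rfl
  | fp v ζ => exact absurd rfl (hp v ζ)

lemma tendsto_ul (w : ℕ → Pt) (v : Ultrafilter ℕ) (hw : ∀ᶠ n in (v : Filter ℕ), NotFp (w n))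
    (h : v.bind (fun n => trace (w n)) ∈ AA) :
    Tendsto w v (𝓝 (.ul (v.bind fun n => trace (w n)) h)) := by
  rw [TopologicalSpace.tendsto_nhds_generateFrom_iff]
  rintro O (⟨M, U, ξ, _, rfl⟩ | ⟨U, ζ, rfl⟩) hO
  · have h1 : {n | M ∈ trace (w n)} ∈ v := hO
    filter_upwards [hw, h1] with n hn hn1
    exact (mem_NN_iff hn M U ξ).2 hn1
  · exact absurd hO (fun h => h)

/-- cluster points from frequently many points of the second kind -/
lemma cluster_ul (w : ℕ → Pt) (h : ∃ᶠ n in atTop, ∃ u hu, w n = .ul u hu) :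
    ∃ u hu, MapClusterPt (Pt.ul u hu) atTop w := by
  obtain ⟨φ, hφ, hw⟩ := extraction_of_frequently_atTop h
  have h1 : ∀ n, trace (w (φ n)) ∈ AA := by
    intro n
    obtain ⟨u, hu, he⟩ := hw n
    rw [he]
    exact hu
  obtain ⟨v, hv, hvA⟩ := AA_cc (fun n => trace (w (φ n))) h1
  refine ⟨_, hvA, ?_⟩
  rw [mapClusterPt_iff_ultrafilter]
  refine ⟨v.map φ, ?_, ?_⟩
  · rw [← Nat.cofinite_eq_atTop]
    exact hφ.injective.tendsto_cofinite.mono_left hv
  · have := tendsto_ul (w ∘ φ) v (Eventually.of_forall fun n => by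
      obtain ⟨u, hu, he⟩ := hw n
      intro v ζ hcon
      rw [Function.comp, he] at hcon
      cases hcon) hvA
    exact this

/-- the subspace without points of the third kind -/
def Y₂ : Set Pt := {p | NotFp p}
/-- the subspace without nodes -/
def Y₁ : Set Pt := {p | ∀ s, p ≠ .nd s}

lemma subtype_cluster {S : Set Pt} (w : ℕ → S) (p : S)
    (h : MapClusterPt p.1 atTop (fun n => (w n).1)) : MapClusterPt p atTop w := by
  rw [mapClusterPt_iff_frequently] at h ⊢
  intro U hU
  rw [nhds_subtype] at hU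
  obtain ⟨V, hV, hVU⟩ := hU
  exact (h V hV).mono fun k hk => hVU hk

lemma wdelta_Y₁ : IsWDelta Y₁ := by
  refine ⟨fun _ => {univ}, ?_, ?_, ?_⟩
  · rintro _ U rfl
    exact isOpen_univ
  · intro _
    exact sUnion_singleton _
  · intro _ w _
    by_cases hfr : ∃ᶠ n in atTop, ∃ u hu, (w n).1 = .ul u hu
    · obtain ⟨u, hu, h⟩ := cluster_ul (fun n => (w n).1) hfr
      exact ⟨⟨.ul u hu, fun s => Pt.noConfusion⟩, subtype_cluster _ _ h⟩
    · rw [not_frequently] at hfr
      obtain ⟨K, hK⟩ := eventually_atTop.1 hfr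
      have h1 : ∀ n, ∃ v ζ, K ≤ n → (w n).1 = .fp v ζ := by
        intro n
        by_cases hn : K ≤ n
        · have h2 := hK n hn
          have h3 := (w n).2
          cases hwn : (w n).1 with
          | nd s => exact absurd hwn (h3 s)
          | ul u hu => exact absurd ⟨u, hu, hwn⟩ h2
          | fp v ζ => exact ⟨v, ζ, fun _ => rfl⟩
        · exact ⟨pure ∅, o, fun h => absurd h hn⟩
      choose v ζ hvζ using h1
      -- the least accumulation level
      have hex : {η | {n | ζ n ≤ η}.Infinite}.Nonempty := by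
        obtain ⟨η, hη⟩ := Pool.Agent.helper73.Coherent.exists_bound W1_Iio
          (countable_range ζ)
        refine ⟨η, ?_⟩
        have : {n | ζ n ≤ η} = univ := eq_univ_of_forall fun n => (hη _ (mem_range_self n)).le
        change {n | ζ n ≤ η}.Infinite
        rw [this]
        exact infinite_univ
      obtain ⟨η, hη1, hη2⟩ := (wellFounded_lt (α := W1)).has_min _ hex
      have hη1' : {n | ζ n ≤ η}.Infinite := hη1
      have hne : NeBot (cofinite ⊓ 𝓟 {n | ζ n ≤ η}) := by
        rw [cofinite_inf_principal_neBot_iff]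
        exact hη1'
      obtain ⟨V, hV⟩ := Ultrafilter.exists_le (cofinite ⊓ 𝓟 {n | ζ n ≤ η})
      have hV1 : (V : Filter ℕ) ≤ cofinite := hV.trans inf_le_left
      have hV2 : {n | ζ n ≤ η} ∈ V := (hV.trans inf_le_right) (mem_principal_self _)
      have hV3 : {n | K ≤ n} ∈ V := by
        refine hV1 ?_
        rw [Nat.cofinite_eq_atTop]
        exact eventually_ge_atTop K
      refine ⟨⟨.fp (V.bind v) η, fun s => Pt.noConfusion⟩, subtype_cluster _ _ ?_⟩
      rw [mapClusterPt_iff_ultrafilter]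
      refine ⟨V, by rw [← Nat.cofinite_eq_atTop]; exact hV1, ?_⟩
      rw [TopologicalSpace.tendsto_nhds_generateFrom_iff]
      rintro O (⟨M, U, ξ, _, rfl⟩ | ⟨U, η', rfl⟩) hO
      · have h4 : {n | U ∈ v n} ∈ V := hO.1
        have h5 : ξ < η := hO.2
        have h6 : {n | ξ < ζ n} ∈ V := by
          refine hV1 ?_
          rw [mem_cofinite]
          have h7 : ¬ {n | ζ n ≤ ξ}.Infinite := fun hcon => hη2 ξ hcon h5
          rw [not_infinite] at h7
          refine h7.subset fun n hn => ?_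
          simpa using hn
        filter_upwards [h4, h6, hV3] with n hn1 hn2 hn3
        change (w n).1 ∈ NN M U ξ
        rw [hvζ n hn3]
        exact ⟨hn1, hn2⟩
      · have h4 : {n | U ∈ v n} ∈ V := hO.1
        have h5 : η ≤ η' := hO.2
        filter_upwards [h4, hV2, hV3] with n hn1 hn2 hn3
        change (w n).1 ∈ BB U η'
        rw [hvζ n hn3]
        exact ⟨hn1, hn2.trans h5⟩

/-- The covers of the second subspace. -/
def Cov (k : ℕ) : Set (Set Y₂) :=
  {O | (∃ x M U ξ, SmallAC M ∧ M ⊆ Cyl x k ∧ Compat M U ∧ O = Subtype.val ⁻¹' (NN M U ξ)) ∨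
    ∃ s, O = Subtype.val ⁻¹' (NN {s} ∅ o)}

lemma mem_NN_singleton {s : D} {p : Pt} (h : p ∈ NN {s} ∅ o) : p = .nd s := by
  by_contra hne
  obtain ⟨O, hO, h1, h2⟩ := sep_nd s p hne
  cases p with
  | nd s' =>
    apply hne
    rw [show s' = s from h]
  | ul u hu => exact singleton_notMem (AA_adm u hu).1 s h
  | fp v ζ => exact v.empty_notMem h.1

lemma wdelta_Y₂ : IsWDelta Y₂ := by
  refine ⟨Cov, ?_, ?_, ?_⟩
  · rintro n O (⟨x, M, U, ξ, _, _, h, rfl⟩ | ⟨s, rfl⟩)
    · exact (NN_open h ξ).preimage continuous_subtype_val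
    · exact (NN_open (compat_singleton s) o).preimage continuous_subtype_val
  · intro k
    refine eq_univ_of_forall fun p => ?_
    obtain ⟨p, hp⟩ := p
    cases p with
    | nd s => exact ⟨_, Or.inr ⟨s, rfl⟩, mem_singleton s⟩
    | ul u hu =>
      obtain ⟨⟨x, hx⟩, M, hM, hMs⟩ := AA_adm u hu
      have hs := SmallAC_mono hMs (inter_subset_left (s := M) (t := Cyl x k))
      obtain ⟨U, hU⟩ := small_compat hs
      exact ⟨_, Or.inl ⟨x, M ∩ Cyl x k, U, o, hs, inter_subset_right, hU, rfl⟩,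
        inter_mem hM (hx k)⟩
    | fp v ζ => exact absurd rfl (hp v ζ)
  · rintro ⟨z, hz⟩ w hw
    cases z with
    | nd s =>
      refine ⟨⟨.nd s, hz⟩, ?_⟩
      rw [mapClusterPt_iff_frequently]
      intro O hO
      refine Eventually.frequently ?_
      filter_upwards [eventually_gt_atTop (len s)] with n hn
      obtain ⟨O', ⟨⟨x, M, U, ξ, _, hMC, _, rfl⟩ | ⟨s', rfl⟩, hzO⟩, hwO⟩ := hw n
      · have h1 : s ∈ M := hzO
        have h2 := (hMC h1).1
        omega
      · have h1 : Pt.nd s = .nd s' := mem_NN_singleton hzO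
        have h2 : (w n).1 = .nd s' := mem_NN_singleton hwO
        have h3 : w n = ⟨.nd s, hz⟩ := Subtype.ext (h2.trans h1.symm)
        rw [h3]
        exact mem_of_mem_nhds hO
    | ul u hu =>
      by_cases hfr : ∃ᶠ n in atTop, ∃ u hu, (w n).1 = .ul u hu
      · obtain ⟨u', hu', h⟩ := cluster_ul (fun n => (w n).1) hfr
        exact ⟨⟨.ul u' hu', fun _ _ => Pt.noConfusion⟩, subtype_cluster _ _ h⟩
      · rw [not_frequently] at hfr
        obtain ⟨K, hK⟩ := eventually_atTop.1 hfr
        obtain ⟨⟨x, hx⟩, -⟩ := AA_adm u hu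
        have h1 : ∀ n, ∃ s, K ≤ n → (w n).1 = .nd s ∧ ∃ j ≥ n, s ∈ Off x j := by
          intro n
          by_cases hn : K ≤ n
          · have h2 := hK n hn
            have h3 := (w n).2
            cases hwn : (w n).1 with
            | nd s =>
              refine ⟨s, fun _ => ⟨rfl, ?_⟩⟩
              obtain ⟨O', ⟨⟨x', M, U, ξ, hMs, hMC, _, rfl⟩ | ⟨s', rfl⟩, hzO⟩, hwO⟩ := hw n
              · have h4 : M ∈ u := hzO
                have h5 : s ∈ M := by
                  have h6 : (w n).1 ∈ NN M U ξ := hwO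
                  rw [hwn] at h6
                  exact h6
                obtain ⟨j, hj⟩ := off_of_AC hx hMs.1 h4 s h5
                refine ⟨j, ?_, hj⟩
                by_contra hlt
                push Not at hlt
                obtain ⟨s', h7, h8⟩ := u.nonempty_of_mem (inter_mem h4 (hx n))
                apply hj.2.1
                rw [(hMC h5).2 j hlt, ← (hMC h7).2 j hlt, h8.2 j hlt]
              · have h4 : Pt.ul u hu = .nd s' := mem_NN_singleton hzO
                cases h4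
            | ul u hu => exact absurd ⟨u, hu, hwn⟩ h2
            | fp v ζ => exact absurd hwn (h3 v ζ)
          · exact ⟨[], fun h => absurd h hn⟩
        choose s hs using h1
        obtain ⟨v, hv, hvA⟩ := AA_dc s x (by
          intro N
          obtain ⟨_, j, hj, hsj⟩ := hs (max N K) (le_max_right _ _)
          exact ⟨max N K, le_max_left _ _, j, le_trans (le_max_left _ _) hj, hsj⟩)
        have hvK : {n | K ≤ n} ∈ v := by
          refine hv ?_
          rw [Nat.cofinite_eq_atTop]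
          exact eventually_ge_atTop K
        have hbind : v.bind (fun n => trace (w n).1) = v.map s := by
          have h9 : ∀ M : Set D, M ∈ v.map s → M ∈ v.bind (fun n => trace (w n).1) := by
            intro M hM
            have hM' : s ⁻¹' M ∈ v := hM
            have : {n | M ∈ trace (w n).1} ∈ v := by
              filter_upwards [hM', hvK] with n hn1 hn2
              rw [(hs n hn2).1]
              exact hn1
            exact this
          exact Ultrafilter.coe_injective ((v.map s).unique h9)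
        have hmem : v.bind (fun n => trace (w n).1) ∈ AA := by
          rw [hbind]
          exact hvA
        refine ⟨⟨.ul _ hmem, fun _ _ => Pt.noConfusion⟩, subtype_cluster _ _ ?_⟩
        rw [mapClusterPt_iff_ultrafilter]
        refine ⟨v, by rw [← Nat.cofinite_eq_atTop]; exact hv, ?_⟩
        exact tendsto_ul (fun n => (w n).1) v (Eventually.of_forall fun n => (w n).2) hmem
    | fp v ζ => exact absurd rfl (hz v ζ)

/-! ### The whole space is not a wΔ-space -/

lemma basis_ul {O : Set Pt} (hO : IsOpen O) {u : Ultrafilter D} {hu : u ∈ AA}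
    (hm : Pt.ul u hu ∈ O) : ∃ M U ξ, Compat M U ∧ M ∈ u ∧ NN M U ξ ⊆ O := by
  have hO' : TopologicalSpace.GenerateOpen Gen O := hO
  induction hO' with
  | basic O hG =>
    rcases hG with ⟨M, U, ξ, h, rfl⟩ | ⟨U, ζ, rfl⟩
    · exact ⟨M, U, ξ, h, hm, Subset.rfl⟩
    · exact absurd hm fun h => h
  | univ => exact ⟨univ, univ, o, compat_univ, univ_mem, subset_univ _⟩
  | inter O O' h1 h2 ih1 ih2 =>
    obtain ⟨M, U, ξ, a1, a2, a3⟩ := ih1 h1 hm.1
    obtain ⟨M', U', ξ', b1, b2, b3⟩ := ih2 h2 hm.2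
    refine ⟨M ∩ M', U ∩ U', max ξ ξ', a1.inter b1, inter_mem a2 b2, ?_⟩
    intro p hp
    refine ⟨a3 ?_, b3 ?_⟩
    · cases p with
      | nd s => exact hp.1
      | ul u' hu' => exact mem_of_superset (show M ∩ M' ∈ u' from hp) inter_subset_left
      | fp v ζ => exact ⟨mem_of_superset hp.1 inter_subset_left,
          lt_of_le_of_lt (le_max_left _ _) hp.2⟩
    · cases p with
      | nd s => exact hp.2
      | ul u' hu' => exact mem_of_superset (show M ∩ M' ∈ u' from hp) inter_subset_right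
      | fp v ζ => exact ⟨mem_of_superset hp.1 inter_subset_right,
          lt_of_le_of_lt (le_max_right _ _) hp.2⟩
  | sUnion S h1 ih =>
    obtain ⟨O, hOS, hmO⟩ := hm
    obtain ⟨M, U, ξ, a1, a2, a3⟩ := ih O hOS (h1 O hOS) hmO
    exact ⟨M, U, ξ, a1, a2, a3.trans (subset_sUnion_of_mem hOS)⟩

theorem not_wdelta : ¬ IsWDelta Pt := by
  rintro ⟨H, hopen, hcov, hH⟩
  have h1 : ∀ n α, ∃ O ∈ H n, ∃ (M : Set D) (U : Set (Set W1)) (ξ : W1) (r : ℕ),
      M ∈ aa α ∧ NN M U ξ ⊆ O ∧ Wn r α ⊆ U := by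
    intro n α
    have h2 : Pt.ul (aa α) (aa_mem α) ∈ ⋃₀ H n := by rw [hcov n]; trivial
    obtain ⟨O, hO, hm⟩ := h2
    obtain ⟨M, U, ξ, a1, a2, a3⟩ := basis_ul (hopen n O hO) hm
    rcases a1 α with ⟨b1, r, b2⟩ | ⟨b1, _⟩
    · exact ⟨O, hO, M, U, ξ, r, b1, a3, b2⟩
    · rw [Ultrafilter.compl_mem_iff_notMem] at b1
      exact absurd a2 b1
  choose O hOH M U ξ r hM hsub hWU using h1
  obtain ⟨α, s, hα, hr, hsM, hext⟩ := link ee ee_fto r M hM
  obtain ⟨ζ, hζ⟩ := Pool.Agent.helper73.Coherent.exists_bound W1_Iio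
    (countable_range fun n => ξ n (α n))
  have hinj : ∀ n k, n ≠ k → α n ≠ α k := by
    intro n k hnk
    rcases lt_or_gt_of_ne hnk with h | h
    · exact (hα n k h).ne
    · exact (hα k n h).ne'
  let y : Set W1 := range α
  have hy : ∀ n, y ∈ Wn (r n (α n)) (α n) := by
    intro n
    refine ⟨mem_range_self n, ?_⟩
    rintro _ ⟨k, rfl⟩ hne
    refine hr n k ?_
    rintro rfl
    exact hne rfl
  obtain ⟨q, hq⟩ := hH (.fp (pure y) ζ) (fun n => .nd (s n)) (fun n => by
    refine ⟨O n (α n), ⟨hOH n (α n), hsub n (α n) ?_⟩, hsub n (α n) ?_⟩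
    · exact ⟨hWU n (α n) (hy n), hζ _ (mem_range_self n)⟩
    · exact hsM n)
  rw [mapClusterPt_iff_frequently] at hq
  cases q with
  | nd t =>
    have h2 := hq _ ((NN_open (compat_singleton t) o).mem_nhds (mem_singleton t))
    obtain ⟨n, hn⟩ := h2.exists
    obtain ⟨k, hk, hnk⟩ := (h2.and_eventually (eventually_gt_atTop n)).exists
    have e1 : s n = t := hn
    have e2 : s k = t := hk
    have := (hext n k hnk).1
    rw [e1, e2] at this
    exact lt_irrefl _ this
  | ul u hu =>
    obtain ⟨-, M₀, hM₀, hMs⟩ := AA_adm u hu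
    obtain ⟨U₀, hU₀⟩ := small_compat hMs
    have h2 := hq _ ((NN_open hU₀ o).mem_nhds (show Pt.ul u hu ∈ NN M₀ U₀ o from hM₀))
    obtain ⟨n, hn⟩ := h2.exists
    obtain ⟨k, hk, hnk⟩ := (h2.and_eventually (eventually_gt_atTop n)).exists
    have e1 : s n ∈ M₀ := hn
    have e2 : s k ∈ M₀ := hk
    have h3 := hext n k hnk
    have hne : s n ≠ s k := by
      intro e
      have := h3.1
      rw [e] at this
      exact lt_irrefl _ this
    obtain ⟨i, hi1, hi2, _⟩ := hMs.1 _ e1 _ e2 hne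
    exact hi1 (h3.2 i hi2).symm
  | fp v η =>
    have h2 := hq _ ((BB_open univ η).mem_nhds (show Pt.fp v η ∈ BB univ η from
      ⟨univ_mem, le_rfl⟩))
    obtain ⟨n, hn⟩ := h2.exists
    exact hn

lemma isClosed_Y₁ : IsClosed Y₁ := by
  rw [← isOpen_compl_iff, isOpen_iff_forall_mem_open]
  intro p hp
  have : ∃ s, p = .nd s := by
    by_contra hcon
    push Not at hcon
    exact hp hcon
  obtain ⟨s, rfl⟩ := this
  refine ⟨NN {s} ∅ o, ?_, NN_open (compat_singleton s) o, mem_singleton s⟩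
  intro q hq hcon
  exact hcon s (mem_NN_singleton hq)

lemma isClosed_Y₂ : IsClosed Y₂ := by
  rw [← isOpen_compl_iff, isOpen_iff_forall_mem_open]
  intro p hp
  have : ∃ v ζ, p = .fp v ζ := by
    by_contra hcon
    push Not at hcon
    exact hp hcon
  obtain ⟨v, ζ, rfl⟩ := this
  refine ⟨BB univ ζ, ?_, BB_open _ _, ⟨univ_mem, le_rfl⟩⟩
  intro q hq hcon
  cases q with
  | nd s => exact hq
  | ul u hu => exact hq
  | fp v' ζ' => exact hcon v' ζ' rfl

lemma union_eq : Y₁ ∪ Y₂ = univ := by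
  refine eq_univ_of_forall fun p => ?_
  cases p with
  | nd s => exact Or.inr fun _ _ => Pt.noConfusion
  | ul u hu => exact Or.inl fun _ => Pt.noConfusion
  | fp v ζ => exact Or.inl fun _ => Pt.noConfusion

/-! ### The map -/

lemma IsWDelta.sum {X Y : Type} [TopologicalSpace X] [TopologicalSpace Y]
    (hX : IsWDelta X) (hY : IsWDelta Y) : IsWDelta (X ⊕ Y) := by
  obtain ⟨G₁, ho₁, hc₁, h₁⟩ := hX
  obtain ⟨G₂, ho₂, hc₂, h₂⟩ := hY
  refine ⟨fun n => {U | (∃ V ∈ G₁ n, U = Sum.inl '' V) ∨ ∃ V ∈ G₂ n, U = Sum.inr '' V},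
    ?_, ?_, ?_⟩
  · rintro n U (⟨V, hV, rfl⟩ | ⟨V, hV, rfl⟩)
    · exact isOpenMap_inl V (ho₁ n V hV)
    · exact isOpenMap_inr V (ho₂ n V hV)
  · intro n
    refine eq_univ_of_forall fun p => ?_
    rcases p with p | p
    · have : p ∈ ⋃₀ G₁ n := by rw [hc₁ n]; trivial
      obtain ⟨V, hV, hp⟩ := this
      exact ⟨_, Or.inl ⟨V, hV, rfl⟩, p, hp, rfl⟩
    · have : p ∈ ⋃₀ G₂ n := by rw [hc₂ n]; trivial
      obtain ⟨V, hV, hp⟩ := this
      exact ⟨_, Or.inr ⟨V, hV, rfl⟩, p, hp, rfl⟩
  · intro p u hu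
    rcases p with p | p
    · have : ∀ n, ∃ v, u n = Sum.inl v ∧ v ∈ starAt p (G₁ n) := by
        intro n
        obtain ⟨U, ⟨⟨V, hV, rfl⟩ | ⟨V, hV, rfl⟩, hp⟩, huU⟩ := hu n
        · obtain ⟨v, hv, hv'⟩ := huU
          obtain ⟨p', hp', e⟩ := hp
          injection e with e
          subst e
          exact ⟨v, hv'.symm, V, ⟨hV, hp'⟩, hv⟩
        · obtain ⟨p', hp', e⟩ := hp
          cases e
      choose v hv hv' using this
      obtain ⟨y, hy⟩ := h₁ p v hv'
      refine ⟨Sum.inl y, ?_⟩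
      have e : u = Sum.inl ∘ v := funext hv
      rw [e]
      exact hy.continuousAt_comp continuous_inl.continuousAt
    · have : ∀ n, ∃ v, u n = Sum.inr v ∧ v ∈ starAt p (G₂ n) := by
        intro n
        obtain ⟨U, ⟨⟨V, hV, rfl⟩ | ⟨V, hV, rfl⟩, hp⟩, huU⟩ := hu n
        · obtain ⟨p', hp', e⟩ := hp
          cases e
        · obtain ⟨v, hv, hv'⟩ := huU
          obtain ⟨p', hp', e⟩ := hp
          injection e with e
          subst e
          exact ⟨v, hv'.symm, V, ⟨hV, hp'⟩, hv⟩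
      choose v hv hv' using this
      obtain ⟨y, hy⟩ := h₂ p v hv'
      refine ⟨Sum.inr y, ?_⟩
      have e : u = Sum.inr ∘ v := funext hv
      rw [e]
      exact hy.continuousAt_comp continuous_inr.continuousAt

/-- The natural map from the disjoint sum of two subspaces. -/
def glue {Y : Type} (A B : Set Y) : A ⊕ B → Y := Sum.elim Subtype.val Subtype.val

lemma glue_perfect {Y : Type} [TopologicalSpace Y] {A B : Set Y} (hA : IsClosed A)
    (hB : IsClosed B) (hAB : A ∪ B = univ) : IsPerfect (glue A B) := by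
  refine ⟨?_, ?_, ?_, ?_⟩
  · exact continuous_subtype_val.sumElim continuous_subtype_val
  · intro C hC
    have e : glue A B '' C = Subtype.val '' (Sum.inl ⁻¹' C : Set A) ∪
        Subtype.val '' (Sum.inr ⁻¹' C : Set B) := by
      ext y
      constructor
      · rintro ⟨p | p, hp, rfl⟩
        · exact Or.inl ⟨p, hp, rfl⟩
        · exact Or.inr ⟨p, hp, rfl⟩
      · rintro (⟨p, hp, rfl⟩ | ⟨p, hp, rfl⟩)
        · exact ⟨Sum.inl p, hp, rfl⟩
        · exact ⟨Sum.inr p, hp, rfl⟩
    rw [e]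
    exact (hA.isClosedMap_subtype_val _ (hC.preimage continuous_inl)).union
      (hB.isClosedMap_subtype_val _ (hC.preimage continuous_inr))
  · intro y
    have : y ∈ A ∪ B := by rw [hAB]; trivial
    rcases this with h | h
    · exact ⟨Sum.inl ⟨y, h⟩, rfl⟩
    · exact ⟨Sum.inr ⟨y, h⟩, rfl⟩
  · intro y
    apply Set.Finite.isCompact
    have hfin1 : (Subtype.val ⁻¹' {y} : Set A).Finite :=
      (Set.finite_singleton y).preimage Subtype.val_injective.injOn
    have hfin2 : (Subtype.val ⁻¹' {y} : Set B).Finite :=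
      (Set.finite_singleton y).preimage Subtype.val_injective.injOn
    refine ((hfin1.image Sum.inl).union (hfin2.image Sum.inr)).subset ?_
    rintro (p | p) hp
    · exact Or.inl ⟨p, hp, rfl⟩
    · exact Or.inr ⟨p, hp, rfl⟩

lemma t35_sum {X Y : Type} [TopologicalSpace X] [TopologicalSpace Y] [T35Space X] [T35Space Y] :
    T35Space (X ⊕ Y) where
  toT0Space := by
    rw [t0Space_iff_not_inseparable]
    intro p q hpq hins
    have key : ∀ (p q : X ⊕ Y), Inseparable p q → p ≠ q → False := by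
      rintro (p | p) (q | q) hins hne
      · have h1 : p ≠ q := fun h => hne (by rw [h])
        have h2 : ¬ Inseparable p q := fun h => h1 h.eq
        rw [← Topology.IsInducing.inseparable_iff (f := (Sum.inl : X → X ⊕ Y))
          IsEmbedding.inl.isInducing] at h2
        exact h2 hins
      · exact absurd ((hins.mem_open_iff isOpen_range_inl).1 (mem_range_self p)) (by simp)
      · exact absurd ((hins.mem_open_iff isOpen_range_inr).1 (mem_range_self p)) (by simp)
      · have h1 : p ≠ q := fun h => hne (by rw [h])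
        have h2 : ¬ Inseparable p q := fun h => h1 h.eq
        rw [← Topology.IsInducing.inseparable_iff (f := (Sum.inr : Y → X ⊕ Y))
          IsEmbedding.inr.isInducing] at h2
        exact h2 hins
    exact key p q hins hpq
  toCompletelyRegularSpace := by
    refine ⟨?_⟩
    rintro (p | p) K hK hp
    · obtain ⟨f, hf1, hf2, hf3⟩ := CompletelyRegularSpace.completely_regular p (Sum.inl ⁻¹' K)
        (hK.preimage continuous_inl) hp
      refine ⟨Sum.elim f (fun _ => 1), hf1.sumElim continuous_const, hf2, ?_⟩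
      rintro (q | q) hq
      · exact hf3 hq
      · rfl
    · obtain ⟨f, hf1, hf2, hf3⟩ := CompletelyRegularSpace.completely_regular p (Sum.inr ⁻¹' K)
        (hK.preimage continuous_inr) hp
      refine ⟨Sum.elim (fun _ => 1) f, continuous_const.sumElim hf1, hf2, ?_⟩
      rintro (q | q) hq
      · rfl
      · exact hf3 hq

/-- A perfect image of a wΔ-space need not be a wΔ-space, even for Tychonoff spaces: there is a
Tychonoff wΔ-space `X` and a perfect map `f` from `X` onto a Tychonoff space `Y` which is not a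
wΔ-space. -/
theorem result : ∃ (X Y : Type) (_ : TopologicalSpace X) (_ : TopologicalSpace Y) (f : X → Y),
    T35Space X ∧ T35Space Y ∧ IsWDelta X ∧ IsPerfect f ∧ ¬ IsWDelta Y :=
  ⟨Y₁ ⊕ Y₂, Pt, inferInstance, inferInstance, glue Y₁ Y₂, t35_sum, inferInstance,
    wdelta_Y₁.sum wdelta_Y₂, glue_perfect isClosed_Y₁ isClosed_Y₂ union_eq, not_wdelta⟩

end Pool.Agent.Results.MP_b40933_gt.PerfectImageTychonoff
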